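import Mathlib
open MeasureTheory Filter Topology ProbabilityTheory
open scoped RealInnerProductSpace
namespace Pool.Agent.H.MP_e732b6_an

section defs
variable (G : Type) {X Y : Type} [Group G]
  [MeasurableSpace X] [MulAction G X] [MeasurableConstSMul G X]
  [MeasurableSpace Y] [MulAction G Y] [MeasurableConstSMul G Y]

/-- `f` has an orbit with compact closure in `L²` -/
def AP (μ : Measure X) [SMulInvariantMeasure G X μ] (f : Lp ℝ 2 μ) : Prop :=
  IsCompact (closure (Set.range fun g : G =>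
    Lp.compMeasurePreserving (fun x => g • x) (measurePreserving_smul g μ) f))

/-- the closed subspace of `L²` of the Kronecker factor -/
noncomputable def Kro (μ : Measure X) [SMulInvariantMeasure G X μ] : Submodule ℝ (Lp ℝ 2 μ) :=
  (Submodule.span ℝ {f | AP G μ f}).topologicalClosure

/-- joinings -/
structure Join (μ : Measure X) (ν : Measure Y) (l : Measure (X × Y)) : Prop where
  prob : IsProbabilityMeasure l
  inv : ∀ g : G, l.map (fun p => (g • p.1, g • p.2)) = l
  fst : l.map Prod.fst = μ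
  snd : l.map Prod.snd = ν

/-- quasi-disjointness -/
def QD (μ : Measure X) (ν : Measure Y) [SMulInvariantMeasure G X μ] [SMulInvariantMeasure G Y ν] :
    Prop :=
  ∀ l, Join G μ ν l →
    (∀ f ∈ Kro G μ, ∀ h ∈ Kro G ν, ∫ p, f p.1 * h p.2 ∂l = (∫ x, f x ∂μ) * ∫ y, h y ∂ν) →
    l = μ.prod ν

end defs

section gen
variable {X Y Z : Type} [MeasurableSpace X] [MeasurableSpace Y] [MeasurableSpace Z]
  {μ : Measure X} {ν : Measure Y} {l : Measure Z}

noncomputable abbrev Co {a : Z → X} (h : MeasurePreserving a l μ) : Lp ℝ 2 μ →ₗᵢ[ℝ] Lp ℝ 2 l :=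
  Lp.compMeasurePreservingₗᵢ ℝ a h

noncomputable def P {a : Z → X} {b : Z → Y} (ha : MeasurePreserving a l μ)
    (hb : MeasurePreserving b l ν) : Lp ℝ 2 μ →L[ℝ] Lp ℝ 2 ν :=
  (ContinuousLinearMap.adjoint (Co hb).toContinuousLinearMap).comp (Co ha).toContinuousLinearMap

variable {a : Z → X} {b : Z → Y} (ha : MeasurePreserving a l μ) (hb : MeasurePreserving b l ν)

lemma inner_P (f : Lp ℝ 2 μ) (h : Lp ℝ 2 ν) : ⟪P ha hb f, h⟫ = ⟪Co ha f, Co hb h⟫ := by
  rw [P, ContinuousLinearMap.comp_apply, ContinuousLinearMap.adjoint_inner_left]; rfl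

lemma inner_P' (f : Lp ℝ 2 μ) (h : Lp ℝ 2 ν) :
    ⟪P ha hb f, h⟫ = ∫ p, f (a p) * h (b p) ∂l := by
  rw [inner_P, L2.inner_def]
  refine integral_congr_ae ?_
  filter_upwards [Lp.coeFn_compMeasurePreserving f ha, Lp.coeFn_compMeasurePreserving h hb]
    with p h1 h2
  erw [h1, h2]
  simp [mul_comm]

lemma P_symm (f : Lp ℝ 2 μ) (h : Lp ℝ 2 ν) : ⟪P ha hb f, h⟫ = ⟪f, P hb ha h⟫ := by
  rw [real_inner_comm _ f, inner_P, inner_P, real_inner_comm]

lemma Co_comp {W : Type} [MeasurableSpace W] {m : Measure W} {s : W → Z}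
    (hs : MeasurePreserving s m l) {c : W → X} (hc : MeasurePreserving c m μ) (e : a ∘ s = c)
    (f : Lp ℝ 2 μ) : Co hs (Co ha f) = Co hc f := by
  subst e
  exact (Lp.compMeasurePreserving_comp_apply f ha hs).symm

lemma P_int {s : Z → Z} (hs : MeasurePreserving s l l) {u : X → X} (hu : MeasurePreserving u μ μ)
    {v v' : Y → Y} (hv : MeasurePreserving v ν ν) (hv' : MeasurePreserving v' ν ν)
    (e1 : a ∘ s = u ∘ a) (e2 : b ∘ s = v ∘ b) (e3 : v' ∘ v = id) (f : Lp ℝ 2 μ) :
    P ha hb (Co hu f) = Co hv (P ha hb f) := by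
  refine ext_inner_right ℝ fun h => ?_
  have h1 : h = Co hv (Co hv' h) :=
    ((Co_comp hv' hv (MeasurePreserving.id ν) e3 h).trans
      (Lp.compMeasurePreserving_id_apply h)).symm
  rw [h1, (Co hv).inner_map_map, inner_P, inner_P, ← (Co hs).inner_map_map (Co ha f),
    Co_comp hu ha (hu.comp ha) rfl, Co_comp ha hs (hu.comp ha) e1,
    Co_comp hv hb (hv.comp hb) rfl, Co_comp hb hs (hv.comp hb) e2]

noncomputable def ind (μ : Measure X) [IsFiniteMeasure μ] {s : Set X} (hs : MeasurableSet s) :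
    Lp ℝ 2 μ := indicatorConstLp 2 hs (measure_ne_top _ _) 1

noncomputable def one (μ : Measure X) [IsFiniteMeasure μ] : Lp ℝ 2 μ := ind μ MeasurableSet.univ

variable [IsProbabilityMeasure μ] [IsProbabilityMeasure ν] [IsProbabilityMeasure l]

lemma inner_ind {s : Set X} (hs : MeasurableSet s) (f : Lp ℝ 2 μ) :
    ⟪ind μ hs, f⟫ = ∫ x in s, f x ∂μ := L2.inner_indicatorConstLp_one hs _ f

lemma inner_one (f : Lp ℝ 2 μ) : ⟪one μ, f⟫ = ∫ x, f x ∂μ := by
  rw [one, inner_ind, Measure.restrict_univ]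

lemma ind_ind {s t : Set X} (hs : MeasurableSet s) (ht : MeasurableSet t) :
    ⟪ind μ hs, ind μ ht⟫ = μ.real (s ∩ t) :=
  L2.real_inner_indicatorConstLp_one_indicatorConstLp_one hs ht _ _

lemma one_ind {s : Set X} (hs : MeasurableSet s) : ⟪one μ, ind μ hs⟫ = μ.real s := by
  rw [one, ind_ind, Set.univ_inter]

lemma one_one : ⟪one μ, one μ⟫ = 1 := by rw [one, ind_ind]; simp

lemma P_ind {s : Set X} {t : Set Y} (hs : MeasurableSet s) (ht : MeasurableSet t) :
    ⟪P ha hb (ind μ hs), ind ν ht⟫ = l.real (a ⁻¹' s ∩ b ⁻¹' t) := by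
  rw [inner_P]
  exact ind_ind (μ := l) (ha.measurable hs) (hb.measurable ht)

omit [IsProbabilityMeasure l] in
lemma P_one (f : Lp ℝ 2 μ) : ⟪P ha hb f, one ν⟫ = ⟪f, one μ⟫ := by
  rw [inner_P, ← (Co ha).inner_map_map]; rfl

lemma const_of (u : Lp ℝ 2 μ) (h : ⟪u, u⟫ = ⟪u, one μ⟫ ^ 2) : u = ⟪u, one μ⟫ • one μ := by
  rw [← sub_eq_zero, ← inner_self_eq_zero (𝕜 := ℝ), inner_sub_left, inner_sub_right,
    inner_sub_right, h]
  simp only [real_inner_smul_left, real_inner_smul_right, one_one, real_inner_comm u (one μ)]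
  ring

lemma ext_ind {u v : Lp ℝ 2 μ} (h : ∀ s (hs : MeasurableSet s), ⟪u, ind μ hs⟫ = ⟪v, ind μ hs⟫) :
    u = v := by
  rw [← sub_eq_zero]
  refine Lp.ext ((Lp.ae_eq_zero_of_forall_setIntegral_eq_zero (u - v) (by simp) (by simp)
    (fun s _ _ => ((Lp.memLp _).integrable one_le_two).integrableOn) fun s hs _ => ?_).trans
    (Lp.coeFn_zero _ _ _).symm)
  rw [← inner_ind hs, real_inner_comm, inner_sub_left, h, sub_self]

end gen

variable {G : Type} {X Y : Type} [Group G]
  [MeasurableSpace X] [MulAction G X] [MeasurableConstSMul G X]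
  [MeasurableSpace Y] [MulAction G Y] [MeasurableConstSMul G Y]
  {μ : Measure X} {ν : Measure Y} {l : Measure (X × Y)}

omit [MeasurableConstSMul G X] [MeasurableConstSMul G Y] in
lemma Join.m1 (j : Join G μ ν l) : MeasurePreserving Prod.fst l μ := ⟨measurable_fst, j.fst⟩
omit [MeasurableConstSMul G X] [MeasurableConstSMul G Y] in
lemma Join.m2 (j : Join G μ ν l) : MeasurePreserving Prod.snd l ν := ⟨measurable_snd, j.snd⟩
lemma Join.m3 (j : Join G μ ν l) (g : G) :
    MeasurePreserving (fun p : X × Y => (g • p.1, g • p.2)) l l := ⟨by fun_prop, j.inv g⟩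

variable [SMulInvariantMeasure G X μ] [SMulInvariantMeasure G Y ν]

lemma Join.int (j : Join G μ ν l) (g : G) (f : Lp ℝ 2 μ) :
    P j.m1 j.m2 (Co (measurePreserving_smul g μ) f) =
      Co (measurePreserving_smul g ν) (P j.m1 j.m2 f) :=
  P_int j.m1 j.m2 (j.m3 g) (measurePreserving_smul g μ) (measurePreserving_smul g ν)
    (measurePreserving_smul g⁻¹ ν) (funext fun _ => rfl) (funext fun _ => rfl)
    (funext fun y => inv_smul_smul g y) f

lemma Join.int' (j : Join G μ ν l) (g : G) (f : Lp ℝ 2 ν) :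
    P j.m2 j.m1 (Co (measurePreserving_smul g ν) f) =
      Co (measurePreserving_smul g μ) (P j.m2 j.m1 f) :=
  P_int j.m2 j.m1 (j.m3 g) (measurePreserving_smul g ν) (measurePreserving_smul g μ)
    (measurePreserving_smul g⁻¹ μ) (funext fun _ => rfl) (funext fun _ => rfl)
    (funext fun y => inv_smul_smul g y) f

lemma Join.ap (j : Join G μ ν l) {f : Lp ℝ 2 μ} (h : AP G μ f) : AP G ν (P j.m1 j.m2 f) := by
  have h1 := h.image (P j.m1 j.m2).continuous
  refine h1.of_isClosed_subset isClosed_closure (closure_minimal ?_ h1.isClosed)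
  rintro _ ⟨g, rfl⟩
  exact ⟨_, subset_closure ⟨g, rfl⟩, j.int g f⟩

lemma ap_kro {f : Lp ℝ 2 μ} (h : AP G μ f) : f ∈ Kro G μ :=
  Submodule.le_topologicalClosure _ (Submodule.subset_span h)

variable [IsProbabilityMeasure μ] [IsProbabilityMeasure ν]

/-- the Markov operator kills the Kronecker factor -/
def Ind (j : Join G μ ν l) : Prop := ∀ f, AP G μ f → P j.m1 j.m2 f = ⟪f, one μ⟫ • one ν

omit [MeasurableConstSMul G Y] [SMulInvariantMeasure G Y ν] in
lemma Ind.kro {j : Join G μ ν l} (h : Ind j) {f : Lp ℝ 2 μ} (hf : f ∈ Kro G μ) :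
    P j.m1 j.m2 f = ⟪f, one μ⟫ • one ν := by
  have : Kro G μ ≤ LinearMap.ker
      (P j.m1 j.m2 - ((innerSL ℝ (one μ)).smulRight (one ν))).toLinearMap :=
    Submodule.topologicalClosure_minimal _ (Submodule.span_le.2 fun f hf => by
      simp [h f hf, real_inner_comm]) (ContinuousLinearMap.isClosed_ker _)
  simpa [sub_eq_zero, real_inner_comm] using this hf

lemma ind_iff (j : Join G μ ν l) : Ind j ↔
    ∀ f ∈ Kro G μ, ∀ h ∈ Kro G ν, ∫ p, f p.1 * h p.2 ∂l = (∫ x, f x ∂μ) * ∫ y, h y ∂ν := by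
  have := j.prob
  refine ⟨fun H f hf h _ => ?_, fun H f hf => ?_⟩
  · rw [← inner_P' j.m1 j.m2, H.kro hf, real_inner_smul_left, real_inner_comm, inner_one, inner_one]
  · rw [← P_one j.m1 j.m2]
    refine const_of _ ?_
    rw [inner_P', H f (ap_kro hf) _ (ap_kro (j.ap hf)), ← inner_one, ← inner_one,
      real_inner_comm f, ← P_one j.m1 j.m2, real_inner_comm (P j.m1 j.m2 f), sq]

theorem self_all [StandardBorelSpace X] (h : QD G μ μ) : QD G μ ν := by
  intro l j H
  rw [← ind_iff j] at H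
  have := j.prob
  have : Nonempty X := nonempty_of_isProbabilityMeasure μ
  set κ := (l.map Prod.swap).condKernel with hκ
  have h1 : ν ⊗ₘ κ = l.map Prod.swap := by
    have := (l.map Prod.swap).disintegrate κ
    rwa [Measure.fst_map_swap, Measure.snd, j.snd] at this
  have mk : ∀ s, MeasurableSet s → Measurable fun y => (κ y).real s := fun s hs =>
    (κ.measurable_coe hs).ennreal_toReal
  have mem : ∀ s, MeasurableSet s → MemLp (fun y => (κ y).real s) 2 ν := fun s hs =>
    MemLp.of_bound (mk s hs).aestronglyMeasurable 1 (ae_of_all _ fun y => by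
      rw [Real.norm_eq_abs, abs_of_nonneg measureReal_nonneg]; exact measureReal_le_one)
  have h2 : ∀ s (hs : MeasurableSet s), P j.m1 j.m2 (ind μ hs) = (mem s hs).toLp _ := by
    intro s hs
    refine ext_ind fun t ht => ?_
    rw [P_ind, real_inner_comm, inner_ind,
      integral_congr_ae (ae_restrict_of_ae (mem s hs).coeFn_toLp)]
    have h3 := Measure.compProd_apply_prod (μ := ν) (κ := κ) ht hs
    rw [h1, Measure.map_apply measurable_swap (ht.prod hs)] at h3
    simp only [Measure.real]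
    rw [integral_toReal (κ.measurable_coe hs).aemeasurable (ae_of_all _ fun y => measure_lt_top _ _),
      ← h3, Set.inter_comm]
    rfl
  set ρ : Measure (X × X) := (κ ×ₖ κ) ∘ₘ ν with hρ
  have h3 : ∀ s t (hs : MeasurableSet s) (ht : MeasurableSet t),
      ρ.real (s ×ˢ t) = ⟪P j.m1 j.m2 (ind μ hs), P j.m1 j.m2 (ind μ ht)⟫ := by
    intro s t hs ht
    rw [h2, h2, L2.inner_def, Measure.real, hρ,
      Measure.bind_apply (hs.prod ht) (κ ×ₖ κ).aemeasurable,
      ← integral_toReal ((κ ×ₖ κ).measurable_coe (hs.prod ht)).aemeasurable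
        (ae_of_all _ fun y => measure_lt_top _ _)]
    refine integral_congr_ae ?_
    filter_upwards [(mem s hs).coeFn_toLp, (mem t ht).coeFn_toLp] with y a1 a2
    rw [a1, a2, Kernel.prod_apply_prod]
    simp [Measure.real, mul_comm]
  have p1 : P j.m1 j.m2 (one μ) = one ν := ext_inner_right ℝ fun h => by
    rw [P_symm, real_inner_comm, P_one, real_inner_comm]
  have jρ : Join G μ μ ρ := by
    refine ⟨inferInstance, fun g => ?_, ?_, ?_⟩
    · refine Measure.ext_prod fun {s t} hs ht => ?_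
      rw [Measure.map_apply (by fun_prop) (hs.prod ht), ← measureReal_eq_measureReal_iff]
      have e := h3 _ _ (measurable_const_smul g hs) (measurable_const_smul g ht)
      rw [h3 s t hs ht, ← (Co (measurePreserving_smul g ν)).inner_map_map, ← j.int, ← j.int]
      exact e
    · ext s hs
      rw [Measure.map_apply measurable_fst hs, ← measureReal_eq_measureReal_iff,
        ← Set.prod_univ, h3 s _ hs MeasurableSet.univ]
      erw [p1]
      rw [P_one, real_inner_comm, one_ind]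
    · ext s hs
      rw [Measure.map_apply measurable_snd hs, ← measureReal_eq_measureReal_iff,
        ← Set.univ_prod, h3 _ s MeasurableSet.univ hs]
      erw [p1]
      rw [real_inner_comm, P_one, real_inner_comm, one_ind]
  have h4 : ∀ f h, ⟪P jρ.m1 jρ.m2 f, h⟫ = ⟪P j.m1 j.m2 f, P j.m1 j.m2 h⟫ := by
    have h5 : ∀ s (hs : MeasurableSet s), P jρ.m1 jρ.m2 (ind μ hs) =
        P j.m2 j.m1 (P j.m1 j.m2 (ind μ hs)) := fun s hs => ext_ind fun t ht => by
      rw [P_ind, P_symm j.m2 j.m1, ← h3]; rfl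
    intro f h
    have h6 : P jρ.m2 jρ.m1 h = P j.m2 j.m1 (P j.m1 j.m2 h) := ext_ind fun t ht => by
      rw [P_symm, h5, ← P_symm j.m1 j.m2, P_symm j.m2 j.m1]
    rw [P_symm, h6, ← P_symm]
  have h5 := h ρ jρ ((ind_iff jρ).1 fun f hf => ext_inner_right ℝ fun h => by
    rw [h4, H f hf, real_inner_smul_left, real_inner_smul_left, real_inner_comm _ (one ν), P_one,
      real_inner_comm _ h])
  refine Measure.ext_prod fun {s t} hs ht => ?_
  have h6 := h3 s s hs hs
  have h7 : ⟪P j.m1 j.m2 (ind μ hs), one ν⟫ = μ.real s := by rw [P_one, real_inner_comm, one_ind]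
  have h8 := const_of (P j.m1 j.m2 (ind μ hs)) (by
    rw [← h6, h5, h7, measureReal_prod_prod, sq])
  have h9 := P_ind j.m1 j.m2 hs ht
  rw [h8, h7, real_inner_smul_left, one_ind] at h9
  rw [← measureReal_eq_measureReal_iff, measureReal_prod_prod, h9]
  rfl

end Pool.Agent.H.MP_e732b6_an
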